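import Mathlib

/-!
# MP_5e3b67_co: no local bijections from dictator to parity with Lipschitz inverse

We show that a `K`-local bijection `φ` of the `n`-dimensional cube with
`XOR (φ x) = x_1` whose inverse is `L`-Lipschitz can exist only if `n < (K + 2) ^ L`.
Hence the answer to the question is no.
-/

namespace Pool.Agent.Results.MP_5e3b67_co.NoLocalBijection

open Finset

/-- The cube `{0,1}^n`, the bits being the two elements of `ZMod 2`. -/
abbrev Cube (n : ℕ) : Type := Fin n → ZMod 2

/-- The dictator function `x ↦ x_1` (the first coordinate has index `0`); the dimension is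
`n + 1`, so that every dimension at least one is covered. -/
def DIC (n : ℕ) (x : Cube (n + 1)) : ZMod 2 := x 0

/-- The parity function `x ↦ x_1 ⊕ ... ⊕ x_n`. -/
def XOR (n : ℕ) (x : Cube (n + 1)) : ZMod 2 := ∑ i, x i

/-- A mapping from `f` to `g`: a bijection `φ` of the cube with `g (φ x) = f x` for all `x`. -/
def IsMapping {n : ℕ} (f g : Cube n → ZMod 2) (φ : Cube n ≃ Cube n) : Prop :=
  ∀ x, g (φ x) = f x

/-- `φ` is `K`-local: every output coordinate `i` is determined by the input coordinates in
a set `S` of at most `K` indices. -/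
def IsLocal {n : ℕ} (K : ℕ) (φ : Cube n → Cube n) : Prop :=
  ∀ i, ∃ S : Finset (Fin n), S.card ≤ K ∧ ∀ x y : Cube n, (∀ j ∈ S, x j = y j) → φ x i = φ y i

/-- `ψ` is `L`-Lipschitz for the Hamming distance. -/
def IsLip {n : ℕ} (L : ℝ) (ψ : Cube n → Cube n) : Prop :=
  ∀ x y, (hammingDist (ψ x) (ψ y) : ℝ) ≤ L * (hammingDist x y : ℝ)

private theorem main_aux (K L n : ℕ) (hn : (K + 2) ^ L ≤ n + 1) (φ : Cube (n + 1) ≃ Cube (n + 1))
    (hm : IsMapping (DIC n) (XOR n) φ) (hK : IsLocal K φ)
    (hL : ∀ x y, hammingDist x y = 1 → hammingDist (φ.symm x) (φ.symm y) ≤ L) : False := by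
  classical
  -- the preimages of the neighbours of `φ 0`
  set u := φ 0 with hu
  set z : Fin (n + 1) → Cube (n + 1) := fun j => φ.symm (u + Pi.single j 1) with hz
  set S : Fin (n + 1) → Finset (Fin (n + 1)) := fun j => univ.filter (fun i => z j i ≠ 0) with hS
  have hφz : ∀ j, φ (z j) = u + Pi.single j 1 := fun j => by simp [hz]
  have hcard : ∀ j, (S j).card ≤ L := by
    intro j
    have h1 : hammingDist (u + Pi.single j 1) u = 1 := by
      rw [hammingDist]
      have : (univ.filter fun i => (u + Pi.single j 1 : Cube (n + 1)) i ≠ u i) = {j} := by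
        ext i
        simp only [mem_filter, mem_univ, true_and, Pi.add_apply, mem_singleton]
        constructor
        · intro h
          by_contra hij
          apply h
          rw [Pi.single_eq_of_ne hij]
          simp
        · rintro rfl
          simp
      rw [this]; simp
    have h2 := hL _ _ h1
    have h3 : φ.symm u = 0 := by simp [hu]
    rw [h3] at h2
    have h4 : hammingDist (φ.symm (u + Pi.single j 1)) 0 = (S j).card := by
      rw [hammingDist]
      simp [hS, hz]
    omega
  have hzero : ∀ j, (0 : Fin (n + 1)) ∈ S j := by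
    intro j
    have h1 := hm (z j)
    rw [hφz j] at h1
    have h2 := hm 0
    rw [← hu] at h2
    simp only [XOR, DIC, Pi.add_apply, Finset.sum_add_distrib] at h1 h2
    rw [h2] at h1
    have h3 : ∑ i, (Pi.single j 1 : Cube (n + 1)) i = 1 := by
      rw [Finset.sum_pi_single']
      simp
    rw [h3] at h1
    simp only [hS, mem_filter, mem_univ, true_and]
    rw [← h1]
    simp
  -- the number of `j` with `Z ⊆ S j`
  let N : Finset (Fin (n + 1)) → Finset (Fin (n + 1)) := fun Z => univ.filter (fun j => Z ⊆ S j)
  let good : Finset (Finset (Fin (n + 1))) :=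
    univ.filter (fun Z => (0 : Fin (n + 1)) ∈ Z ∧ (K + 2) ^ (L + 1 - Z.card) ≤ (N Z).card)
  have hgood : good.Nonempty := by
    refine ⟨{0}, ?_⟩
    simp only [good, mem_filter, mem_univ, true_and, mem_singleton, card_singleton]
    have : N {0} = univ := by
      ext j
      simp [N, hzero j]
    rw [this]
    simpa using hn
  obtain ⟨Z, hZ, hmax⟩ := Finset.exists_max_image good Finset.card hgood
  simp only [good, mem_filter, mem_univ, true_and] at hZ
  obtain ⟨h0Z, hNZ⟩ := hZ
  have hZL : Z.card ≤ L := by
    by_contra hcon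
    have h1 : 1 ≤ (N Z).card := le_trans (Nat.one_le_pow _ _ (by omega)) hNZ
    obtain ⟨j, hj⟩ := Finset.card_pos.mp (by omega : 0 < (N Z).card)
    simp only [N, mem_filter, mem_univ, true_and] at hj
    have := Finset.card_le_card hj
    have := hcard j
    omega
  have hext : ∀ t, t ∉ Z → (N (insert t Z)).card < (K + 2) ^ (L - Z.card) := by
    intro t ht
    by_contra hcon
    push Not at hcon
    have hin : insert t Z ∈ good := by
      simp only [good, mem_filter, mem_univ, true_and]
      refine ⟨Finset.mem_insert_of_mem h0Z, ?_⟩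
      rw [Finset.card_insert_of_notMem ht]
      rwa [show L + 1 - (Z.card + 1) = L - Z.card by omega]
    have := hmax _ hin
    rw [Finset.card_insert_of_notMem ht] at this
    omega
  set w : Cube (n + 1) := fun i => if i ∈ Z then 1 else 0 with hw
  have key : φ w = φ 0 := by
    funext i
    obtain ⟨T, hT, hloc⟩ := hK i
    -- find `j ≠ i` with `Z ⊆ S j` and `S j \ Z` disjoint from `T`
    have hex : ∃ j, j ≠ i ∧ Z ⊆ S j ∧ ∀ t ∈ T, t ∈ S j → t ∈ Z := by
      by_contra hcon
      push Not at hcon
      have hsub : N Z ⊆ insert i ((T \ Z).biUnion (fun t => N (insert t Z))) := by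
        intro j hj
        simp only [N, mem_filter, mem_univ, true_and] at hj
        by_cases hji : j = i
        · simp [hji]
        · obtain ⟨t, htT, htS, htZ⟩ := hcon j hji hj
          apply Finset.mem_insert_of_mem
          simp only [mem_biUnion, mem_sdiff]
          refine ⟨t, ⟨htT, htZ⟩, ?_⟩
          simp only [N, mem_filter, mem_univ, true_and]
          exact Finset.insert_subset htS hj
      have h1 := Finset.card_le_card hsub
      have h2 := Finset.card_insert_le i ((T \ Z).biUnion (fun t => N (insert t Z)))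
      have h3 : ((T \ Z).biUnion (fun t => N (insert t Z))).card
          ≤ (T \ Z).card * ((K + 2) ^ (L - Z.card)) := by
        apply Finset.card_biUnion_le_card_mul
        intro t ht
        exact le_of_lt (hext t (Finset.mem_sdiff.mp ht).2)
      have h4 : (T \ Z).card ≤ K := le_trans (Finset.card_le_card Finset.sdiff_subset) hT
      have h5 : (K + 2) ^ (L + 1 - Z.card) = (K + 2) * (K + 2) ^ (L - Z.card) := by
        rw [show L + 1 - Z.card = (L - Z.card) + 1 by omega, pow_succ]
        ring
      have h6 : 1 ≤ (K + 2) ^ (L - Z.card) := Nat.one_le_pow _ _ (by omega)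
      rw [h5] at hNZ
      have h7 : (T \ Z).card * ((K + 2) ^ (L - Z.card)) ≤ K * ((K + 2) ^ (L - Z.card)) :=
        Nat.mul_le_mul_right _ h4
      nlinarith
    obtain ⟨j, hji, hZj, hTj⟩ := hex
    have h1 : φ w i = φ (z j) i := by
      apply hloc
      intro t ht
      by_cases htZ : t ∈ Z
      · have : t ∈ S j := hZj htZ
        simp only [hS, mem_filter, mem_univ, true_and] at this
        have h01 : ∀ a : ZMod 2, a ≠ 0 → a = 1 := by decide
        simp [hw, htZ, h01 _ this]
      · have : t ∉ S j := fun h => htZ (hTj t ht h)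
        simp only [hS, mem_filter, mem_univ, true_and, not_not] at this
        simp [hw, htZ, this]
    rw [h1, hφz j]
    simp only [Pi.add_apply]
    rw [Pi.single_eq_of_ne (Ne.symm hji)]
    simp [hu]
  have hw0 : w = 0 := φ.injective key
  have : w 0 = 0 := by rw [hw0]; rfl
  simp [hw, h0Z] at this

/-- **Result.** (1) There are no constants `K`, `L` such that for every dimension `n + 1 ≥ 1`
there is a mapping from `DIC` to `XOR` that is `K`-local and whose inverse is `L`-Lipschitz.
(2) More precisely such a mapping does not exist in any dimension `n + 1 ≥ (K + 2) ^ L`. -/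
theorem result :
    (¬ ∃ (K : ℕ) (L : ℝ), ∀ n : ℕ, ∃ φ : Cube (n + 1) ≃ Cube (n + 1),
      IsMapping (DIC n) (XOR n) φ ∧ IsLocal K φ ∧ IsLip L φ.symm) ∧
    (∀ K L n : ℕ, (K + 2) ^ L ≤ n + 1 → ¬ ∃ φ : Cube (n + 1) ≃ Cube (n + 1),
      IsMapping (DIC n) (XOR n) φ ∧ IsLocal K φ ∧ IsLip L φ.symm) := by
  constructor
  · rintro ⟨K, L, h⟩
    obtain ⟨φ, hm, hK, hL⟩ := h ((K + 2) ^ ⌊L⌋₊)
    refine main_aux K ⌊L⌋₊ ((K + 2) ^ ⌊L⌋₊) (by omega) φ hm hK ?_
    intro x y hxy
    have := hL x y
    rw [hxy] at this
    apply Nat.le_floor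
    simpa using this
  · rintro K L n hn ⟨φ, hm, hK, hL⟩
    refine main_aux K L n hn φ hm hK ?_
    intro x y hxy
    have := hL x y
    rw [hxy] at this
    have h2 : (hammingDist (φ.symm x) (φ.symm y) : ℝ) ≤ (L : ℝ) := by simpa using this
    exact_mod_cast h2

end Pool.Agent.Results.MP_5e3b67_co.NoLocalBijection
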